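import Pool.Agent.W5h26.GE.NestI
import Pool.Agent.Results.MP_b583a4_nt.MostTuples

/-!
# Ordinary two-dimensional representations with scalar reduction, all residue fields: most tuples of tame primes

Let `n` be a natural number and `δ > 0`. For all sufficiently large primes `p` the following holds. For all primes `q₁ ≡ 1 mod p`
but a proportion of at most `δ`, for all primes `q₂ ≡ 1 mod p` but a proportion of at most `δ` (which may depend on `q₁`), …, for all
primes `q_n ≡ 1 mod p` but a proportion of at most `δ`: every two-dimensional ordinary representation of `Gal(ℚbar/ℚ)` over the ring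
of integers `A` of any finite extension of `ℚ_p`, with any residue field and any ramification index `e`, whose reduction is twice a
character and which is unramified outside `p`, `q₁`, …, `q_n` and primes not congruent to `1` modulo `p`, is reducible (if
`2 e < p - 1`, or if the inertia groups at the `q_i` act unipotently).

The starting result `MostTuples` is the case of residue fields of order `p`. There the exceptional systems of linking numbers are
counted by a sum over all solutions over the field with `p` elements. For all residue fields at once this is not possible, and the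
proof is different: generic linking numbers over a field of characteristic zero have no exceptional solution over any extension
(a solution gives generators of the field of fewer elements than the number of linking numbers). By compactness there is one
nonzero polynomial with integral coefficients which vanishes at all exceptional systems of linking numbers over all fields of odd
characteristic, and the lemma of Schwartz and Zippel bounds the number of its zeros modulo `p`.
-/

set_option autoImplicit false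

open NumberField Matrix IsLocalRing

namespace Pool.Agent.Results.MP_b583a4_nt.AllResidueFields

open Finset Filter
open Pool.Agent.Results.MP_b583a4_nt.OrdinaryScalar
open Pool.Agent.Results.MP_b583a4_nt.MostTuples (notuple dat lk_self dat_cons)
open Pool.Agent.Q202.RT Pool.Agent.Q202.QT Pool.Agent.W5h26.GE
open Pool.Agent.W569.TG (lk)

/-- All ordinary representations with scalar reduction whose tame ramification at primes congruent to `1` modulo `p` is in `T` are
reducible: for all finite sets `S` of primes `l ≠ p` whose members congruent to `1` modulo `p` are in `T`, all complete discrete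
valuation rings `A` with finite residue field in which `p` has valuation `e ≥ 1`, every continuous `ρ : Gal(ℚbar/ℚ) → GL_2(A)`,
unramified outside `S` and `p`, residually twice a character, such that `2 e < p - 1` or the inertia groups at the primes in `S`
congruent to `1` modulo `p` act unipotently, and such that the decomposition group at a prime above `p` preserves a line, preserves
a line. -/
def OrdinaryReducible (p : ℕ) (T : Set ℕ) : Prop :=
  ∀ S : Finset ℕ, (∀ l ∈ S, l.Prime ∧ l ≠ p) → (∀ l ∈ S, p ∣ l - 1 → l ∈ T) →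
    ∀ (A : Type) [CommRing A] [IsDomain A] [IsDiscreteValuationRing A] [IsAdicComplete (maximalIdeal A) A]
      [TopologicalSpace A], IsAdic (maximalIdeal A) → Finite (ResidueField A) →
    ∀ e : ℕ, 1 ≤ e → (p : A) ∈ maximalIdeal A ^ e → (p : A) ∉ maximalIdeal A ^ (e + 1) →
    ∀ ρ : Gal(AlgebraicClosure ℚ/ℚ) →* GL (Fin 2) A, Continuous ρ → UnramifiedOutside p S ρ → ResiduallyScalar ρ →
      (2 * e < p - 1 ∨ UnipotentInertia p S ρ) →
      ∀ P : Ideal (𝓞 (AlgebraicClosure ℚ)), P.IsMaximal → (p : 𝓞 (AlgebraicClosure ℚ)) ∈ P →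
        StableLine ρ (Decomposition P) → StableLine ρ Set.univ

open Classical in
/-- The primes `q ≤ x` with `p ∣ q - 1`. -/
noncomputable def Pr (p x : ℕ) : Finset ℕ := (range (x + 1)).filter fun q => q.Prime ∧ p ∣ q - 1

open Classical in
/-- `Nested p R [s₁, …, s_n] T`: for a proportion of at least `s₁` of the primes `q₁ ≡ 1 mod p`, for a proportion of at least `s₂`
of the primes `q₂ ≡ 1 mod p`, …, for a proportion of at least `s_n` of the primes `q_n ≡ 1 mod p`, the set
`T ∪ {q₁, …, q_n}` has the property `R` (and the `q_i` are distinct and not in `T`). -/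
def Nested (p : ℕ) (R : Set ℕ → Prop) : List ℝ → Set ℕ → Prop
  | [], T => R T
  | s :: L, T => ∀ ε : ℝ, 0 < ε → ∀ᶠ x : ℕ in atTop, (s - ε) * ((Pr p x).card : ℝ) ≤
      (((Pr p x).filter fun q => q ∉ T ∧ Nested p R L (insert q T)).card : ℝ)

/-- The property of `T` in the theorem. -/
def Reducible (p : ℕ) (T : Set ℕ) : Prop := (∀ q ∈ T, ¬ p ^ 2 ∣ q - 1) ∧ OrdinaryReducible p T

theorem Pr_eq (p x : ℕ) [Fact p.Prime] : Pr p x = P1 p x := by
  ext l
  rw [mem_P1, Pr, mem_filter, mem_range]
  constructor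
  · rintro ⟨h1, h2, h3⟩
    exact ⟨by omega, h2, h3⟩
  · rintro ⟨h1, h2, h3⟩
    exact ⟨by omega, h2, h3⟩

section
variable {p : ℕ} [Fact p.Prime]

theorem sq_of_lv {q : ℕ} (h : lv p q ≠ 0) : ¬ p ^ 2 ∣ q - 1 := by
  have hp : p.Prime := Fact.out
  intro h'
  apply h
  unfold lv
  rw [ZMod.natCast_eq_zero_iff]
  obtain ⟨m, hm⟩ := h'
  refine ⟨m, ?_⟩
  rw [hm, pow_two, mul_assoc, Nat.mul_div_cancel_left _ hp.pos]

theorem good_of (hp2 : p ≠ 2) (χ : ∀ j : ℕ, (ZMod j)ˣ →* Multiplicative (ZMod p)) (hχ : Kr χ) {n : ℕ} (l : Fin n → ℕ)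
    (hli : Function.Injective l) (hG : ¬ BadI (dat χ l)) : Reducible p (Set.range l) := by
  have hp : p.Prime := Fact.out
  have hsq : ∀ q ∈ Set.range l, ¬ p ^ 2 ∣ q - 1 := by
    rintro q ⟨i, rfl⟩
    refine sq_of_lv fun h => hG ⟨ZMod p, inferInstance, RingHom.id _, Or.inl ⟨i, ?_⟩⟩
    exact h
  refine ⟨hsq, ?_⟩
  intro S hS hT A _ _ _ _ _ hA hfin e he h0 h0' ρ hρ hur hres hU P hP hpP hloc
  have hpm : (p : A) ∈ maximalIdeal A := Ideal.pow_le_self (by omega) h0
  have hchar : CharP (ResidueField A) p := Pool.Agent.TH831.OE.charP_res hp hpm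
  have hS' : ∀ a ∈ S, a.Prime ∧ a ≠ p ∧ ¬ p ^ 2 ∣ a - 1 := by
    intro a ha
    refine ⟨(hS a ha).1, (hS a ha).2, fun h => ?_⟩
    exact hsq a (hT a ha ((dvd_pow_self p two_ne_zero).trans h)) h
  set φ := ZMod.castHom (dvd_refl p) (ResidueField A) with hφ
  have hg : ¬ BadK (fun i => φ ((dat χ l).1 i).1) (fun i j => φ (((dat χ l).1 i).2 j)) (fun j => φ ((dat χ l).2 j)) :=
    fun h => hG ⟨ResidueField A, inferInstance, φ, h⟩
  unfold BadK at hg
  push Not at hg
  obtain ⟨-, g2, g3, g4⟩ := hg
  have eu : (fun l : ℕ => (((l - 1) / p : ℕ) : ResidueField A)) = fun l => φ (lv p l) := by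
    funext a
    unfold lv
    rw [map_natCast]
  have el : (fun l j : ℕ => linking (ResidueField A) j l (χ j)) = fun l j => φ (lk χ l j) := by
    funext a j
    exact MostTuples.linking_lk χ j a
  have eb : (fun j : ℕ => linking (ResidueField A) j p (χ j)) = fun j => φ (lk χ p j) := by
    funext j
    exact MostTuples.linking_lk χ j p
  have hsub : Tame p S ⊆ univ.image l := by
    intro a ha
    obtain ⟨i, hi⟩ := hT a (mem_filter.1 ha).1 (mem_filter.1 ha).2
    exact mem_image.2 ⟨i, mem_univ i, hi⟩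
  have hN1 : NoTuple (ResidueField A) p S χ 1 := by
    apply notuple
    rw [eu, el, eb]
    exact nto_mono hsub (nto_of_nti hli (u := fun l => φ (lv p l)) (L := fun l j => φ (lk χ l j)) (b := fun j => φ (lk χ p j)) g4)
  have hN0 : NoTuple (ResidueField A) p S χ 0 := by
    apply notuple
    rw [eu, el, eb]
    exact nto_mono hsub (nto_of_nti hli (u := fun l => φ (lv p l)) (L := fun l j => φ (lk χ l j)) (b := fun j => φ (lk χ p j)) g3)
  have hP' : NoPair (ResidueField A) p S χ := by
    have h : NP (Tame p S) (fun l => (((l - 1) / p : ℕ) : ResidueField A)) (fun l j => linking (ResidueField A) j l (χ j))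
        (fun j => linking (ResidueField A) j p (χ j)) := by
      rw [eu, el, eb]
      exact np_mono hsub (np_of_npi hli (u := fun l => φ (lv p l)) (L := fun l j => φ (lk χ l j))
        (b := fun j => φ (lk χ p j)) g2)
    exact h
  exact OrdinaryScalar.result p hp2 S hS' A hA hfin e he h0 h0' χ
    (fun a ha => (hχ a (hS a (mem_filter.1 ha).1).1 (mem_filter.1 ha).2).1)
    (Or.inr ⟨hP', hN1, Or.inr hN0⟩) ρ hρ hur hres hU P hP hpP hloc

/-! ### The step -/

theorem step (hp2 : p ≠ 2) {χ : ∀ j : ℕ, (ZMod j)ˣ →* Multiplicative (ZMod p)} (hχ : Kr χ) {m : ℕ} (l : Fin m → ℕ)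
    (hl : ∀ i, (l i).Prime) (hpl : ∀ i, p ∣ l i - 1) (hli : Function.Injective l) {R : Set ℕ → Prop} {L : List ℝ} {T : Set ℕ}
    (hT : Set.range l = T) (Good : (Fin (m + 1) → ZMod p) → (Fin (m + 1) → ZMod p) → Prop) (hG0 : ∀ w s, Good w s → w ≠ 0)
    (hGsc : ∀ w s (c : ZMod p), c ≠ 0 → Good w s → Good (fun j => c * w j) s) {δ : ℝ} (hδ : δ ≤ 1)
    (hcount : δ * ((p : ℝ) ^ (m + 1) * (p : ℝ) ^ (m + 1)) ≤
      ((∑ w : Fin (m + 1) → ZMod p, (@Finset.filter _ (fun s => Good w s) (Classical.decPred _)
        (univ : Finset (Fin (m + 1) → ZMod p))).card : ℕ) : ℝ))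
    (h : ∀ q : ℕ, q.Prime → p ∣ q - 1 → q ∉ T → Good (vec χ (Fin.cons p l) q) (Fin.cons (lv p q) fun i => lk χ q (l i)) →
      Nested p R L (insert q T)) : Nested p R (δ :: L) T := by
  classical
  have hp : p.Prime := Fact.out
  have hp0 : (0 : ℝ) < p := by exact_mod_cast hp.pos
  intro ε hε
  have hd := densN (p := p) hp2 χ hχ l hl hpl hli Good hG0 hGsc δ hδ (by
    rw [le_div_iff₀ (by
      have : 0 < Fintype.card (Fin (m + 1) → ZMod p) := Fintype.card_pos
      positivity), Fintype.card_fun, ZMod.card, Fintype.card_fin]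
    refine le_trans (le_of_eq ?_) (hcount.trans (le_of_eq ?_))
    · push_cast
      ring
    · congr!) ε hε
  filter_upwards [hd] with x hx
  rw [Pr_eq]
  refine le_trans hx (Nat.cast_le.2 (card_le_card ?_))
  intro q hq
  obtain ⟨h1, h2, h3⟩ := (@Finset.mem_filter _ _ _ _ _).1 hq
  obtain ⟨-, hqp, hpq⟩ := mem_P1.1 h1
  have h4 : q ∉ T := by
    rw [← hT]
    rintro ⟨i, hi⟩
    exact h2 i hi.symm
  exact (@Finset.mem_filter _ _ _ _ _).2 ⟨h1, h4, h q hqp hpq h4 h3⟩

theorem most_of (hp2 : p ≠ 2) (χ : ∀ j : ℕ, (ZMod j)ˣ →* Multiplicative (ZMod p)) (hχ : Kr χ) {η δ : ℝ} (hη : 0 < η)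
    (hδ : η + 1 / p ≤ δ) (m : ℕ) : ∀ (k : ℕ) (l : Fin k → ℕ), (∀ i, (l i).Prime) → (∀ i, p ∣ l i - 1) → Function.Injective l →
      GdI η m k (dat χ l) → Nested p (Reducible p) (List.replicate m (1 - δ)) (Set.range l) := by
  classical
  have hp : p.Prime := Fact.out
  have hp0 : (0 : ℝ) < p := by exact_mod_cast hp.pos
  have hp1 : (1 : ℝ) ≤ p := by exact_mod_cast hp.one_lt.le
  induction m with
  | zero =>
    intro k l hl hpl hli hG
    exact good_of hp2 χ hχ l hli (gdI_zero hG)
  | succ m ih =>
    intro k l hl hpl hli hG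
    rw [List.replicate_succ]
    have hst := gdI_step hη hG
    refine step hp2 hχ l hl hpl hli rfl (fun w s => w ≠ 0 ∧ GdI η m (k + 1) (ext (dat χ l) w s)) (fun w s h => h.1)
      (fun w s c hc h => ⟨fun h0 => h.1 (by
        funext j
        exact (mul_eq_zero.1 (congrFun h0 j)).resolve_left hc), ?_⟩) ?_ ?_ ?_
    · unfold GdI
      rw [NbI_wsc m k hc]
      exact h.2
    · have : (0 : ℝ) < 1 / p := by positivity
      linarith
    · refine le_trans ?_ (hst.trans (le_of_eq (by congr!)))
      have h1 : (0 : ℝ) < (p : ℝ) ^ (k + 1) := by positivity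
      have h2 : (p : ℝ) ^ (k + 1) * 1 ≤ (p : ℝ) ^ (k + 1) * ((1 / p) * (p : ℝ) ^ (k + 1)) := by
        refine mul_le_mul_of_nonneg_left ?_ h1.le
        rw [pow_succ, one_div, mul_comm ((p : ℝ) ^ k), inv_mul_cancel_left₀ hp0.ne']
        exact one_le_pow₀ hp1
      have h3 : (1 - δ) * ((p : ℝ) ^ (k + 1) * (p : ℝ) ^ (k + 1)) ≤
          (1 - η - 1 / p) * ((p : ℝ) ^ (k + 1) * (p : ℝ) ^ (k + 1)) :=
        mul_le_mul_of_nonneg_right (by linarith) (by positivity)
      linarith
    · intro q hqp hpq hqT h34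
      rw [← Fin.range_cons]
      refine ih (k + 1) (Fin.cons q l) ?_ ?_ ?_ ?_
      · intro i
        refine Fin.cases ?_ (fun j => ?_) i
        · exact hqp
        · exact hl j
      · intro i
        refine Fin.cases ?_ (fun j => ?_) i
        · exact hpq
        · exact hpl j
      · rw [Fin.cons_injective_iff]
        exact ⟨fun ⟨i, hi⟩ => hqT ⟨i, hi⟩, hli⟩
      · rw [dat_cons χ l hqp]
        exact h34.2

end

theorem tuples (n : ℕ) (δ : ℝ) (hδ : 0 < δ) :
    ∃ p₀ : ℕ, ∀ p : ℕ, p.Prime → p₀ ≤ p → Nested p (Reducible p) (List.replicate n (1 - δ)) ∅ := by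
  obtain ⟨c, p₀, hc⟩ := gdI_init n
  obtain ⟨M, hM⟩ := exists_nat_gt ((c : ℝ) / (δ / 2) ^ n)
  obtain ⟨M', hM'⟩ := exists_nat_gt (2 / δ)
  refine ⟨p₀ + M + M' + 3, fun p hpp hp => ?_⟩
  have : Fact p.Prime := ⟨hpp⟩
  have hp0 : (0 : ℝ) < p := by exact_mod_cast hpp.pos
  have hp2 : p ≠ 2 := by omega
  have hMp : (M : ℝ) ≤ p := by exact_mod_cast (by omega : M ≤ p)
  have hMp' : (M' : ℝ) ≤ p := by exact_mod_cast (by omega : M' ≤ p)
  obtain ⟨χ, hχ, -⟩ := extend (p := p) (fun _ => 1) ∅ (fun j hj => absurd hj (Set.notMem_empty j))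
  have hG : GdI (δ / 2) n 0 (dat χ (Fin.elim0 : Fin 0 → ℕ)) := by
    refine hc p (by omega) hp2 (δ / 2) ?_ _
    have h1 := lt_of_lt_of_le hM hMp
    rw [div_lt_iff₀ (by positivity)] at h1
    linarith
  have := most_of hp2 χ hχ (η := δ / 2) (δ := δ) (by positivity) (by
    have h1 := lt_of_lt_of_le hM' hMp'
    have : 1 / (p : ℝ) ≤ δ / 2 := by
      rw [div_lt_iff₀ hδ] at h1
      rw [div_le_div_iff₀ hp0 (by norm_num)]
      linarith
    linarith) n 0 (Fin.elim0 : Fin 0 → ℕ) (fun i => i.elim0) (fun i => i.elim0) (fun i => i.elim0) hG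
  rwa [Set.range_eq_empty] at this

/-- **Ordinary representations with scalar reduction: most tuples of tame primes, all residue fields.** -/
theorem result (n : ℕ) (δ : ℝ) (hδ : 0 < δ) :
    ∃ p₀ : ℕ, ∀ p : ℕ, p.Prime → p₀ ≤ p → Nested p (Reducible p) (List.replicate n (1 - δ)) ∅ :=
  tuples n δ hδ

end Pool.Agent.Results.MP_b583a4_nt.AllResidueFields
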