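import Pool.Agent.W5h93.FMR.Gen3

/-!
# The two-dimensional Fontaine–Mazur conjecture over `ℚ`: when the decomposition group at `p` maps onto
# the image

Let `E` be a finite extension of `ℚ_p` (or, more generally, `A` a Noetherian local ring with finite
residue field `k` of characteristic `p`), and let `V` be a continuous two-dimensional representation of
the absolute Galois group of `ℚ` over `A`, even or odd. Let `D` be the decomposition group or the
inertia group at a place above `p`.

Theorem: in the cases (a) and (b) below, the image of `D` in `V` is the whole image of `V`. So if `V` is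
irreducible (over any field `F` over `A`, for example `F = E` or an algebraic closure of `E`), and
potentially reducible on `D` (for example, potentially ordinary), then `V` is dihedral or its projective
image is finite.

(a) The reduction of `V` is an extension of two characters. After a twist (by a Teichmüller lift) these
are the trivial character and a character `r`; let `K` be the cyclic extension of `ℚ` cut out by
`r`. Suppose that

* `r(D)` is the image of `r`: only one prime of `K` is above `p` (for the decomposition group), or `K`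
  is totally ramified at `p` (for the inertia group);
* the components of the class group of `K` for the characters `r` and `r⁻¹` are zero (this is stated
  for the unramified cyclic extensions of degree `p`, as `p`-parts of class groups are described by
  class field theory);
* `V` is unramified outside `p` and a set `S` of primes `l` with `l ≢ 1` modulo `p` and
  `r(Frob_l) ≠ l, l⁻¹` in `k` (for one of the Frobenius elements at `l`, if `r` is ramified at `l`).

(b) The reduction of `V` is arbitrary, but its semisimplification is trivial on the absolute Galois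
group `N` of a finite Galois extension `K` of `ℚ` such that `D` maps onto the Galois group of `K`. Suppose
that

* the class number of `K` is prime to `p`, or, more generally, the part of the class group of `K` which
  is related to the adjoint representation of the reduction of `V` is zero: each homomorphism from `N`
  to `ℤ / p` is zero if it is trivial on all inertia groups and on `D`, and if for each `g` the
  generalized eigenvalues of the conjugation by `g` on it are conjugates of quotients of eigenvalues of
  the reduction of `V(g)`;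
* `V` is unramified outside `p` and a set `S` of primes `l` such that `l ≢ 1` modulo `p` and the quotient
  of the eigenvalues of a Frobenius element at `l` on the reduction of `V` is not `l` or `l⁻¹`.

If `V` is moreover potentially semi-stable at `p` with distinct Hodge–Tate weights, then the projective
image is not finite, and `V` is induced from an algebraic Hecke character of an imaginary quadratic
field: it is a twist of the representation of a cusp form with complex multiplication, as
predicted. (This deduction from classical results is not part of the formal proof.)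

Examples for (a), by classical results on class groups. (1) `r = 1`: the second condition is always
true. (2) `r` is the `c`-th power of the cyclotomic character `ω`: `K` is totally ramified at `p`, so
`D` can be the inertia group; the second condition says that the components of the class group of
`ℚ(ζ_p)` for `ω ^ c` and `ω ^ (-c)` are zero. This is true for all `c` if `p` is regular; for all even
`c` (that is, for all even `V`) if `p` satisfies Vandiver's conjecture, as all `p < 2 ^ 31` do; for odd
`c`, if certain two Bernoulli numbers are prime to `p` (Herbrand); and for `c = ± 1, (p - 1) / 2` for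
all `p`. (3) `r` is quadratic, the character of `ℚ(√d)`: the conditions say that `p` is not split in
`ℚ(√d)` and does not divide its class number, and that no `l` in `S` is `1` modulo `p`, or `-1` modulo
`p` and inert.

The theorem `OnePrimeAboveP` needs that the whole `p`-part of the class group of `ℚ(ζ_p)` is zero and
that `V` is unramified outside `p` (if `r` is a power of `ω`). Idea: a homomorphism `h` from the absolute
Galois group of `K` to `ℤ / p` which is trivial on an open subgroup `ρ⁻¹(1 + M₂(𝔪 ^ m))` is killed by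
the `m`-th power of a polynomial in the conjugation by `g` whose roots are conjugates of the quotients
of the eigenvalues of the reduction of `V(g)`, as the adjoint action on the layers
`M₂(𝔪 ^ i / 𝔪 ^ (i + 1))` has this property. This is used for Frobenius elements at the primes `l`
(where `h(φ τ φ⁻¹) = l h(τ)` on inertia), and in (a) also for a generator `g` of the image of `D`.
-/

set_option autoImplicit false

namespace Pool.Agent.Results.MP_b583a4_nt.ImageAtP

open NumberField IsLocalRing Matrix

/-- The absolute Galois group of a field, with its Krull topology. -/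
abbrev AbsGal (k : Type) [Field k] : Type := Gal(AlgebraicClosure k/k)

/-- The ring of all algebraic integers. -/
abbrev Integers : Type := 𝓞 (AlgebraicClosure ℚ)

/-- The decomposition group at the prime ideal `P` of the ring of all algebraic integers. -/
def Decomposition (P : Ideal Integers) : Set (AbsGal ℚ) := {g | ∀ x : Integers, g • x ∈ P ↔ x ∈ P}

/-- The inertia group at the prime ideal `P` of the ring of all algebraic integers. -/
def Inertia (P : Ideal Integers) : Set (AbsGal ℚ) := {g | ∀ x : Integers, g • x - x ∈ P}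

/-- `φ` is a Frobenius element at the prime ideal `Q` above the prime number `l`. -/
def IsFrobenius (l : ℕ) (Q : Ideal Integers) (φ : AbsGal ℚ) : Prop := ∀ x : Integers, φ • x - x ^ l ∈ Q

/-- `ρ` is unramified at all primes which are not in `T`. -/
def UnramifiedOutside {A : Type} [CommRing A] (T : Set ℕ) (ρ : AbsGal ℚ →* GL (Fin 2) A) : Prop :=
  ∀ P : Ideal Integers, P.IsMaximal → (∀ l ∈ T, (l : Integers) ∉ P) → ∀ τ ∈ Inertia P, ρ τ = 1

/-- The trace of the reduction of `ρ` at `σ`. -/
noncomputable def tr {A : Type} [CommRing A] [IsLocalRing A] (ρ : AbsGal ℚ →* GL (Fin 2) A) (σ : AbsGal ℚ) :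
    ResidueField A := residue A (ρ σ : Matrix (Fin 2) (Fin 2) A).trace

/-- The determinant of the reduction of `ρ` at `σ`. -/
noncomputable def dt {A : Type} [CommRing A] [IsLocalRing A] (ρ : AbsGal ℚ →* GL (Fin 2) A) (σ : AbsGal ℚ) :
    ResidueField A := residue A (ρ σ : Matrix (Fin 2) (Fin 2) A).det

/-- The semisimplification of the reduction of `ρ` is the sum of the trivial character and `r`: the
characteristic polynomials are the same. -/
def Reduction {A : Type} [CommRing A] [IsLocalRing A] (ρ : AbsGal ℚ →* GL (Fin 2) A)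
    (r : AbsGal ℚ →* (ResidueField A)ˣ) : Prop :=
  ∀ σ, tr ρ σ = 1 + r σ ∧ dt ρ σ = r σ

/-- `D` maps onto the image of `r`. -/
def MapsOnto {k : Type} [Field k] (D : Set (AbsGal ℚ)) (r : AbsGal ℚ →* kˣ) : Prop :=
  ∀ g, ∃ δ ∈ D, r δ = r g

/-- Let `K` be the field cut out by `r`: the kernel of `r` is its absolute Galois group. Every
continuous homomorphism `h` from the absolute Galois group of `K` to `k` which is trivial on all
inertia groups and satisfies `h(σ τ σ⁻¹) = χ(σ) h(τ)` is zero. By class field theory: the component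
of the class group of `K` for the character `χ` is zero. -/
def NoComponent {k : Type} [Field k] (r χ : AbsGal ℚ →* kˣ) : Prop :=
  ∀ h : r.ker →* Multiplicative k, IsOpen (h.ker : Set r.ker) →
    (∀ P : Ideal Integers, P.IsMaximal → ∀ τ : r.ker, (τ : AbsGal ℚ) ∈ Inertia P → h τ = 1) →
    (∀ (σ : AbsGal ℚ) (τ τ' : r.ker), (τ' : AbsGal ℚ) = σ * τ * σ⁻¹ →
      Multiplicative.toAdd (h τ') = (χ σ : k) * Multiplicative.toAdd (h τ)) →
    ∀ τ, h τ = 1

/-- Condition on the prime numbers `l` at which `ρ` is ramified, in case (a): `l` is not `1` in `k`, and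
at each prime above `l` there are a Frobenius element `φ` with `r(φ) ≠ l` and one with `r(φ) ≠ l⁻¹`. -/
def Admissible {k : Type} [Field k] (r : AbsGal ℚ →* kˣ) (l : ℕ) : Prop :=
  (l : k) ≠ 1 ∧ ∀ Q : Ideal Integers, Q.IsMaximal → (l : Integers) ∈ Q →
    (∃ φ, IsFrobenius l Q φ ∧ (r φ : k) ≠ l) ∧ ∃ φ, IsFrobenius l Q φ ∧ (r φ : k) * l ≠ 1

/-- The homomorphism `Q(T) h`, where `(T h)(τ) = h(g τ g⁻¹)`. -/
noncomputable def polyConj {p : ℕ} {N : Subgroup (AbsGal ℚ)} [N.Normal] (g : AbsGal ℚ) (Q : Polynomial ℤ)
    (h : N →* Multiplicative (ZMod p)) : N →* Multiplicative (ZMod p) :=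
  ∏ i ∈ Finset.range (Q.natDegree + 1),
    (h.comp (MulAut.conjNormal (g ^ i) : MulAut N).toMonoidHom) ^ Q.coeff i

open Polynomial in
/-- The polynomial with the roots `1, 1, α / β, β / α`, multiplied by `d`, where `α` and `β` are the roots
of `X ^ 2 - t X + d`. If `t` and `d` are the trace and the determinant of a matrix, it kills the
conjugation by the matrix. -/
noncomputable def adjointPolynomial {k : Type} [Field k] (t d : k) : k[X] :=
  (X - 1) ^ 2 * (C d * (X + 1) ^ 2 - C t ^ 2 * X)

/-- `h` is of adjoint type: for each `g`, the roots of the minimal polynomial of the conjugation by `g` on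
`h` are conjugates of roots of the adjoint polynomial of the reduction of `ρ(g)`. -/
def AdjointType {A : Type} [CommRing A] [IsLocalRing A] (ρ : AbsGal ℚ →* GL (Fin 2) A) {p : ℕ}
    {N : Subgroup (AbsGal ℚ)} [N.Normal] (h : N →* Multiplicative (ZMod p)) : Prop :=
  ∀ (g : AbsGal ℚ) (Q : Polynomial ℤ),
    adjointPolynomial (tr ρ g) (dt ρ g) ∣ Q.map (Int.castRingHom (ResidueField A)) →
      ∃ m : ℕ, (polyConj g Q)^[m] h = 1

/-- Let `N` be the absolute Galois group of `K`: every continuous homomorphism from `N` to `ℤ / p` which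
is of adjoint type and trivial on all inertia groups and on `D` is trivial. By class field theory, this
is true if the class number of `K` is prime to `p`. -/
def NoAdjointPart {A : Type} [CommRing A] [IsLocalRing A] (p : ℕ) (D : Set (AbsGal ℚ))
    (N : Subgroup (AbsGal ℚ)) [N.Normal] (ρ : AbsGal ℚ →* GL (Fin 2) A) : Prop :=
  ∀ h : N →* Multiplicative (ZMod p), IsOpen (h.ker : Set N) →
    (∀ P : Ideal Integers, P.IsMaximal → ∀ τ : N, (τ : AbsGal ℚ) ∈ Inertia P → h τ = 1) →
    (∀ τ : N, (τ : AbsGal ℚ) ∈ D → h τ = 1) → AdjointType ρ h → h = 1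

/-- Condition on the prime numbers `l` at which `ρ` is ramified, in case (b): `l` is not `1` in `k`, and
at each prime above `l` there is a Frobenius element `φ` such that the quotient of the eigenvalues of the
reduction of `ρ` at `φ` is not `l` or `l⁻¹`. -/
def AdjointAdmissible {A : Type} [CommRing A] [IsLocalRing A] (ρ : AbsGal ℚ →* GL (Fin 2) A) (l : ℕ) :
    Prop :=
  (l : ResidueField A) ≠ 1 ∧ ∀ Q : Ideal Integers, Q.IsMaximal → (l : Integers) ∈ Q →
    ∃ φ, IsFrobenius l Q φ ∧ dt ρ φ * ((l : ResidueField A) + 1) ^ 2 ≠ tr ρ φ ^ 2 * l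

/-- The action of `σ` on `V = F ^ 2`. -/
noncomputable def act {A : Type} [CommRing A] (F : Type) [Field F] [Algebra A F]
    (ρ : AbsGal ℚ →* GL (Fin 2) A) (σ : AbsGal ℚ) (v : Fin 2 → F) : Fin 2 → F :=
  ((ρ σ : Matrix (Fin 2) (Fin 2) A).map (algebraMap A F)) *ᵥ v

/-- `V` is irreducible. -/
def Irreducible {A : Type} [CommRing A] (F : Type) [Field F] [Algebra A F]
    (ρ : AbsGal ℚ →* GL (Fin 2) A) : Prop :=
  ∀ W : Submodule F (Fin 2 → F), (∀ σ, ∀ w ∈ W, act F ρ σ w ∈ W) → W = ⊥ ∨ W = ⊤

/-- `V` is potentially reducible on `D`: a line of `V` is stable under a subgroup `D'`, finitely many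
left cosets of which cover `D`. -/
def PotentiallyReducibleOn {A : Type} [CommRing A] (F : Type) [Field F] [Algebra A F]
    (ρ : AbsGal ℚ →* GL (Fin 2) A) (D : Set (AbsGal ℚ)) : Prop :=
  ∃ (D' : Subgroup (AbsGal ℚ)) (R : Set (AbsGal ℚ)) (v : Fin 2 → F), R.Finite ∧
    (∀ δ ∈ D, ∃ r ∈ R, r⁻¹ * δ ∈ D') ∧ v ≠ 0 ∧ ∀ δ ∈ D', ∃ c : F, act F ρ δ v = c • v

/-- The projective image is finite: an open normal subgroup acts by scalars. -/
def ProjectivelyFinite {A : Type} [CommRing A] (F : Type) [Field F] [Algebra A F]
    (ρ : AbsGal ℚ →* GL (Fin 2) A) : Prop :=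
  ∃ S : Subgroup (AbsGal ℚ), S.Normal ∧ S.FiniteIndex ∧ IsOpen (S : Set (AbsGal ℚ)) ∧
    ∀ σ ∈ S, ∃ c : F, ∀ w, act F ρ σ w = c • w

/-- `V` is dihedral: the absolute Galois group of a quadratic field preserves a line. -/
def Dihedral {A : Type} [CommRing A] (F : Type) [Field F] [Algebra A F]
    (ρ : AbsGal ℚ →* GL (Fin 2) A) : Prop :=
  ∃ (T : Subgroup (AbsGal ℚ)) (v : Fin 2 → F), T.index = 2 ∧ IsOpen (T : Set (AbsGal ℚ)) ∧ v ≠ 0 ∧
    ∀ σ ∈ T, ∃ c : F, act F ρ σ v = c • v

/-- **The image of the decomposition group or the inertia group at `p`.** -/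
theorem result (p : ℕ) [Fact p.Prime] (A : Type) [CommRing A] [IsLocalRing A] [IsNoetherianRing A]
    [TopologicalSpace A] (hA : IsAdic (maximalIdeal A)) (hfin : Finite (ResidueField A))
    (hpA : (p : A) ∈ maximalIdeal A) (ρ : AbsGal ℚ →* GL (Fin 2) A)
    (hρ : ∀ i j, Continuous fun σ => (ρ σ : Matrix (Fin 2) (Fin 2) A) i j)
    (P : Ideal Integers) (hP : P.IsMaximal) (hpP : (p : Integers) ∈ P)
    (D : Set (AbsGal ℚ)) (hD : D = Decomposition P ∨ D = Inertia P)
    (S : Set ℕ) (hS : ∀ l ∈ S, l.Prime ∧ l ≠ p) (hur : UnramifiedOutside (insert p S) ρ)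
    (hcase :
      -- (a) the reduction is an extension of two characters; eigencomponents of the class group
      (∃ r : AbsGal ℚ →* (ResidueField A)ˣ, Reduction ρ r ∧ MapsOnto D r ∧ NoComponent r r ∧
        NoComponent r r⁻¹ ∧ ∀ l ∈ S, Admissible r l) ∨
      -- (b) arbitrary reduction; the adjoint part of the class group
      (∃ (N : Subgroup (AbsGal ℚ)) (_ : N.Normal), IsOpen (N : Set (AbsGal ℚ)) ∧
        (∀ σ ∈ N, tr ρ σ = 2 ∧ dt ρ σ = 1) ∧ (∀ g, ∃ δ ∈ D, δ⁻¹ * g ∈ N) ∧ NoAdjointPart p D N ρ ∧
        ∀ l ∈ S, AdjointAdmissible ρ l)) :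
    -- the image of `D` is the whole image
    (∀ g, ∃ δ ∈ D, ρ δ = ρ g) ∧
    -- potentially reducible representations
    ∀ (F : Type) [Field F] [Algebra A F], Irreducible F ρ → PotentiallyReducibleOn F ρ D →
      ProjectivelyFinite F ρ ∨ Dihedral F ρ := by
  have hur' : ∀ Q : Ideal Integers, Q.IsMaximal → (p : Integers) ∉ Q →
      (∀ l ∈ S, (l : Integers) ∉ Q) → ∀ τ, Pool.Agent.W569.FM.InInertia Q τ → ρ τ = 1 := by
    intro Q hQ hpQ hSQ τ hτ
    refine hur Q hQ (fun l hl => ?_) τ hτ
    rcases hl with rfl | hl
    · exact hpQ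
    · exact hSQ l hl
  have hIle : Pool.Agent.W5h93.FMQ.Ic P ≤ Pool.Agent.W5h93.FMP.Dc P :=
    fun τ hτ => Pool.Agent.W5h93.FMP.inertia_mem hτ
  obtain ⟨D₀, hD₀, hD₀c, hID, hDD⟩ : ∃ D₀ : Subgroup (AbsGal ℚ), (D₀ : Set (AbsGal ℚ)) = D ∧
      IsClosed (D₀ : Set (AbsGal ℚ)) ∧ Pool.Agent.W5h93.FMQ.Ic P ≤ D₀ ∧
      D₀ ≤ Pool.Agent.W5h93.FMP.Dc P := by
    rcases hD with rfl | rfl
    · exact ⟨Pool.Agent.W5h93.FMP.Dc P, rfl, Pool.Agent.W5h93.FMR.Dc_closed P, hIle, le_rfl⟩
    · exact ⟨Pool.Agent.W5h93.FMQ.Ic P, rfl, Pool.Agent.W5h93.FMQ.Ic_closed P, le_rfl, hIle⟩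
  have honto : ∀ g, ∃ δ ∈ D, ρ δ = ρ g := by
    subst hD₀
    rcases hcase with ⟨r, hr, hrD, hc1, hc2, hadm⟩ | ⟨N, hNn, hNo, hun, hDN, hcl, hadm⟩
    · exact Pool.Agent.W5h93.FMR.onto (p := p) hA hfin hpA hρ hP hpP hD₀c hID hDD r hrD hr
        (fun l hl => ⟨(hS l hl).1, (hS l hl).2, (hadm l hl).1, (hadm l hl).2⟩) hur' hc1 hc2
    · have hun' : ∀ σ ∈ N, (ρ σ : Matrix (Fin 2) (Fin 2) A).trace - 2 ∈ maximalIdeal A ∧
          (ρ σ : Matrix (Fin 2) (Fin 2) A).det - 1 ∈ maximalIdeal A := by
        intro σ hσ
        obtain ⟨h1, h2⟩ := hun σ hσ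
        constructor
        · rw [← residue_eq_zero_iff, map_sub, map_ofNat]
          exact sub_eq_zero.2 h1
        · rw [← residue_eq_zero_iff, map_sub, map_one]
          exact sub_eq_zero.2 h2
      exact Pool.Agent.W5h93.FMR.onto_adj (p := p) hA hfin hpA hρ hP hpP hD₀c hID hDD hNo hun' hDN
        (fun l hl => ⟨(hS l hl).1, (hS l hl).2, (hadm l hl).1, (hadm l hl).2⟩) hur' hcl
  refine ⟨honto, ?_⟩
  intro F _ _ hirr hred
  obtain ⟨D', R, v, hRf, hR, hv, hD'⟩ := hred
  rcases Pool.Agent.W5h93.FMR.dihS hA hρ (D := D) honto hRf hR hirr hv hD' with h | ⟨T, h3, h4, h5⟩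
  · exact Or.inl h
  · exact Or.inr ⟨T, v, h3, h4, hv, h5⟩

end Pool.Agent.Results.MP_b583a4_nt.ImageAtP
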