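import Pool.Agent.W5h93.FMP.Arith

/-!
# The two-dimensional Fontaine–Mazur conjecture over `ℚ`: potentially reducible restriction to the
# decomposition group, when there is only one prime above `p`

Let `E` be a finite extension of `ℚ_p` (or the fraction field of a Noetherian local domain with finite
residue field of characteristic `p`; `p = 2` is allowed), and let `V` be a continuous irreducible
two-dimensional `E`-representation of the absolute Galois group of `ℚ`. Suppose that the restriction of
`V` to a decomposition group at `p` is potentially reducible (for example, potentially ordinary).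

Theorem: `V` is dihedral (a subgroup of index two preserves a line) or its projective image is finite, in
each of the following cases.

(a) There is an algebraic extension `K` of `ℚ` (for example, the field cut out by the semisimplification
of the reduction of `V`) such that the reduction of `V` is unipotent on the absolute Galois group of
`K`, `K` has only one prime `𝔭` above `p`, and `𝔭` splits completely in no cyclic extension of degree `p`
of `K` which is contained in the field cut out by `V`. By class field theory, for a number field `K`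
such that the class number of the ring of `p`-integers of `K` is prime to `p`, this is true for
all `V` which are unramified outside `p` and a finite set `S` of primes, if the `p`-units of `K` generate
the product of the groups `k(w)ˣ / p`, `w` a prime of `K` above `S`.

(b) `p` is a regular prime, `V` is unramified outside `p`, and the reduction of `V` is reducible (that
is, unipotent on the absolute Galois group of the field of the `p`-th roots of unity). A prime number
`p` is regular if and only if every cyclic extension of degree `p` of this field is ramified, and this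
is the form in which regularity is used here.

(c) `p` is odd, the reduction of `V` is unipotent, and `V` is unramified outside `p`, a prime number `q`
such that `p` is not a `p`-th power modulo `q`, and primes which are not congruent to `1` modulo `p`.

If `V` is moreover potentially semi-stable at `p` with distinct Hodge–Tate weights, as in the
Fontaine–Mazur conjecture, then the projective image is not finite, and `V` is induced from an
algebraic Hecke character of an imaginary quadratic field: it is a twist of the representation of a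
cusp form with complex multiplication. So the conjecture is true for these `V`. (This deduction from
classical results is not part of the formal proof.)

The case `K = ℚ`, `p = 2` of (a) is the theorem `PotentiallyReducibleAtTwo` of the starting files. Idea:
under the condition in (a) the decomposition group at `p` maps onto the closure of the image of `V`
(Burnside's basis theorem), so that a line which is stable under an open subgroup of the decomposition
group is stable under an open subgroup of the absolute Galois group of `ℚ`.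
-/

set_option autoImplicit false

namespace Pool.Agent.Results.MP_b583a4_nt.OnePrimeAboveP

open NumberField IsLocalRing Matrix

/-- The absolute Galois group of a field, with its Krull topology. -/
abbrev AbsGal (k : Type) [Field k] : Type := Gal(AlgebraicClosure k/k)

/-- The algebraic extensions of `k` in the algebraic closure. -/
abbrev AlgExt (k : Type) [Field k] : Type := IntermediateField k (AlgebraicClosure k)

/-- The absolute Galois group of the extension `K`: the automorphisms which are trivial on `K`. -/
noncomputable def galOver {k : Type} [Field k] (K : AlgExt k) : Subgroup (AbsGal k) := K.fixingSubgroup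

/-- The field generated by the `p`-th roots of unity. -/
noncomputable def cyclotomic (k : Type) [Field k] (p : ℕ) : AlgExt k :=
  IntermediateField.adjoin k {x | x ^ p = 1}

/-- The decomposition group at the prime ideal `P` of the ring of all algebraic integers. -/
def Decomposition (P : Ideal (𝓞 (AlgebraicClosure ℚ))) : Set (AbsGal ℚ) :=
  {g | ∀ x : 𝓞 (AlgebraicClosure ℚ), g • x ∈ P ↔ x ∈ P}

/-- The inertia group at the prime ideal `P` of the ring of all algebraic integers. -/
def Inertia (P : Ideal (𝓞 (AlgebraicClosure ℚ))) : Set (AbsGal ℚ) :=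
  {g | ∀ x : 𝓞 (AlgebraicClosure ℚ), g • x - x ∈ P}

/-- `ρ` is unramified at all primes which are not in `T`. -/
def UnramifiedOutside {A : Type} [CommRing A] (T : Set ℕ) (ρ : AbsGal ℚ →* GL (Fin 2) A) : Prop :=
  ∀ P : Ideal (𝓞 (AlgebraicClosure ℚ)), P.IsMaximal → (∀ l ∈ T, (l : 𝓞 (AlgebraicClosure ℚ)) ∉ P) →
    ∀ τ ∈ Inertia P, ρ τ = 1

/-- The reduction of `ρ` is unipotent on the absolute Galois group of `K`. -/
def UnipotentOver {A : Type} [CommRing A] [IsLocalRing A] (K : AlgExt ℚ)
    (ρ : AbsGal ℚ →* GL (Fin 2) A) : Prop :=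
  ∀ σ ∈ galOver K, ∃ m : ℕ, ∀ i j, (((ρ σ : Matrix (Fin 2) (Fin 2) A) - 1) ^ m) i j ∈ maximalIdeal A

/-- The decomposition group at `P` maps onto the set of the embeddings of `K`: there is only one prime
of `K` above the prime number in `P`. -/
def OnlyPrime (P : Ideal (𝓞 (AlgebraicClosure ℚ))) (K : AlgExt ℚ) : Prop :=
  ∀ g : AbsGal ℚ, ∃ δ ∈ Decomposition P, ∀ x ∈ K, g x = δ x

/-- The prime of `K` below `P` splits completely in no cyclic extension of degree `p` of `K` which is
contained in the field cut out by `ρ`: every continuous homomorphism from the absolute Galois group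
of `K` to `ℤ / p` which is trivial on the kernel of `ρ` and on the decomposition group at `P` is
trivial. -/
def NoSplitExtension {A : Type} [CommRing A] (p : ℕ) (P : Ideal (𝓞 (AlgebraicClosure ℚ))) (K : AlgExt ℚ)
    (ρ : AbsGal ℚ →* GL (Fin 2) A) : Prop :=
  ∀ h : galOver K →* Multiplicative (ZMod p), IsOpen (h.ker : Set (galOver K)) →
    (∀ σ : galOver K, ρ σ = 1 → h σ = 1) →
    (∀ σ : galOver K, (σ : AbsGal ℚ) ∈ Decomposition P → h σ = 1) → ∀ σ, h σ = 1

/-- Every cyclic extension of degree `p` of the field of the `p`-th roots of unity is ramified at some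
prime: every continuous homomorphism from its absolute Galois group to `ℤ / p` which is trivial on all
the inertia groups is trivial. By class field theory this says that `p` is a regular prime. -/
def Regular (p : ℕ) : Prop :=
  ∀ h : galOver (cyclotomic ℚ p) →* Multiplicative (ZMod p),
    IsOpen (h.ker : Set (galOver (cyclotomic ℚ p))) →
    (∀ P : Ideal (𝓞 (AlgebraicClosure ℚ)), P.IsMaximal →
      ∀ τ : galOver (cyclotomic ℚ p), (τ : AbsGal ℚ) ∈ Inertia P → h τ = 1) → ∀ σ, h σ = 1

/-- The action of `σ` on `V = F ^ 2`. -/
noncomputable def act {A : Type} [CommRing A] (F : Type) [Field F] [Algebra A F]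
    (ρ : AbsGal ℚ →* GL (Fin 2) A) (σ : AbsGal ℚ) (v : Fin 2 → F) : Fin 2 → F :=
  ((ρ σ : Matrix (Fin 2) (Fin 2) A).map (algebraMap A F)) *ᵥ v

/-- `V` is irreducible. -/
def Irreducible {A : Type} [CommRing A] (F : Type) [Field F] [Algebra A F]
    (ρ : AbsGal ℚ →* GL (Fin 2) A) : Prop :=
  ∀ W : Submodule F (Fin 2 → F), (∀ σ, ∀ w ∈ W, act F ρ σ w ∈ W) → W = ⊥ ∨ W = ⊤

/-- `V` is potentially reducible on `D`: a line of `V` is stable under a subgroup `D'`, finitely many
left cosets of which cover `D`. -/
def PotentiallyReducibleOn {A : Type} [CommRing A] (F : Type) [Field F] [Algebra A F]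
    (ρ : AbsGal ℚ →* GL (Fin 2) A) (D : Set (AbsGal ℚ)) : Prop :=
  ∃ (D' : Subgroup (AbsGal ℚ)) (R : Set (AbsGal ℚ)) (v : Fin 2 → F), R.Finite ∧
    (∀ δ ∈ D, ∃ r ∈ R, r⁻¹ * δ ∈ D') ∧ v ≠ 0 ∧ ∀ δ ∈ D', ∃ c : F, act F ρ δ v = c • v

/-- The projective image is finite: an open normal subgroup acts by scalars. -/
def ProjectivelyFinite {A : Type} [CommRing A] (F : Type) [Field F] [Algebra A F]
    (ρ : AbsGal ℚ →* GL (Fin 2) A) : Prop :=
  ∃ S : Subgroup (AbsGal ℚ), S.Normal ∧ S.FiniteIndex ∧ IsOpen (S : Set (AbsGal ℚ)) ∧
    ∀ σ ∈ S, ∃ c : F, ∀ w, act F ρ σ w = c • w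

/-- `V` is dihedral: the absolute Galois group of a quadratic field preserves a line. -/
def Dihedral {A : Type} [CommRing A] (F : Type) [Field F] [Algebra A F]
    (ρ : AbsGal ℚ →* GL (Fin 2) A) : Prop :=
  ∃ (T : Subgroup (AbsGal ℚ)) (v : Fin 2 → F), T.index = 2 ∧ IsOpen (T : Set (AbsGal ℚ)) ∧ v ≠ 0 ∧
    ∀ σ ∈ T, ∃ c : F, act F ρ σ v = c • v

/-- **Irreducible two-dimensional representations which are potentially reducible at `p`.** -/
theorem result (p : ℕ) [Fact p.Prime] (A : Type) [CommRing A] [IsLocalRing A] [IsNoetherianRing A]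
    [TopologicalSpace A] (hA : IsAdic (maximalIdeal A)) (hfin : Finite (ResidueField A))
    (hpA : (p : A) ∈ maximalIdeal A) (F : Type) [Field F] [Algebra A F] [IsFractionRing A F]
    (ρ : AbsGal ℚ →* GL (Fin 2) A)
    (hρ : ∀ i j, Continuous fun σ => (ρ σ : Matrix (Fin 2) (Fin 2) A) i j)
    (P : Ideal (𝓞 (AlgebraicClosure ℚ))) (hP : P.IsMaximal) (hpP : (p : 𝓞 (AlgebraicClosure ℚ)) ∈ P)
    (hcase :
      -- (a) only one prime above `p` in `K`, and no cyclic extension in which it splits completely
      (∃ K : AlgExt ℚ, UnipotentOver K ρ ∧ OnlyPrime P K ∧ NoSplitExtension p P K ρ) ∨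
      -- (b) regular primes
      (Regular p ∧ UnramifiedOutside {p} ρ ∧ UnipotentOver (cyclotomic ℚ p) ρ) ∨
      -- (c) one tame prime
      (p ≠ 2 ∧ ∃ (S : Finset ℕ) (q : ℕ), (∀ l ∈ S, l.Prime ∧ l ≠ p) ∧
        (∀ l ∈ S, p ∣ l - 1 → l = q) ∧ (p : ZMod q) ^ ((q - 1) / p) ≠ 1 ∧
        UnramifiedOutside (insert p (S : Set ℕ)) ρ ∧ UnipotentOver ⊥ ρ))
    (hirr : Irreducible F ρ) (hred : PotentiallyReducibleOn F ρ (Decomposition P)) :
    ProjectivelyFinite F ρ ∨ Dihedral F ρ := by
  obtain ⟨D', R, v, hRf, hR, hv, hD'⟩ := hred
  have happ : ∀ (m : ℕ) (g : AbsGal ℚ), ∃ δ ∈ Pool.Agent.W5h93.FMP.Dc P,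
      δ⁻¹ * g ∈ Pool.Agent.Z384.cong ρ m := by
    rcases hcase with ⟨K, hun, hone, hno⟩ | ⟨hreg, hur, hun⟩ | ⟨hp2, S, q, hS, hq, hpq, hur, hun⟩
    · refine Pool.Agent.W5h93.FMP.dense (p := p) hA hfin hpA hρ (galOver K)
        (Pool.Agent.W5h93.FMP.Dc P) (fun g => ?_) hun hno
      obtain ⟨δ, hδ, hδg⟩ := hone g
      refine ⟨δ, hδ, ?_⟩
      show δ⁻¹ * g ∈ Pool.Agent.W5h93.FMP.fx K
      rw [Pool.Agent.W5h93.FMP.mem_fx]
      intro x hx
      rw [AlgEquiv.mul_apply, hδg x hx, ← AlgEquiv.mul_apply, inv_mul_cancel, AlgEquiv.one_apply]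
    · refine Pool.Agent.W5h93.FMP.dense (p := p) hA hfin hpA hρ (galOver (cyclotomic ℚ p))
        (Pool.Agent.W5h93.FMP.Dc P) (Pool.Agent.W5h93.FMP.one_prime hP hpP) hun ?_
      intro h ho hk hD
      refine Pool.Agent.W5h93.FMP.reg_key hreg hP hpP h ho (fun Q hQ hpQ τ hτ => ?_) hD
      refine hk τ (hur Q hQ (fun l hl => ?_) _ hτ)
      rw [Set.mem_singleton_iff.1 hl]
      exact hpQ
    · refine Pool.Agent.W5h93.FMP.dense (p := p) hA hfin hpA hρ ⊤
        (Pool.Agent.W5h93.FMP.Dc P) (fun g => ⟨1, one_mem _, trivial⟩) (fun σ _ => ?_) ?_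
      · refine hun σ ?_
        show σ ∈ Pool.Agent.W5h93.FMP.fx (⊥ : AlgExt ℚ)
        rw [Pool.Agent.W5h93.FMP.mem_fx]
        intro x hx
        obtain ⟨y, rfl⟩ := IntermediateField.mem_bot.1 hx
        exact σ.commutes y
      · intro h ho hk hD
        let f : AbsGal ℚ →* Multiplicative (ZMod p) := h.comp (Subgroup.topEquiv.symm.toMonoidHom)
        have hf : ∀ σ : AbsGal ℚ, f σ = h ⟨σ, trivial⟩ := fun σ => rfl
        have ho' : IsOpen (f.ker : Set (AbsGal ℚ)) := by
          have h1 : Continuous (fun σ : AbsGal ℚ => (⟨σ, trivial⟩ : (⊤ : Subgroup (AbsGal ℚ)))) :=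
            Continuous.subtype_mk continuous_id _
          exact ho.preimage h1
        have h2 := Pool.Agent.W5h93.FMP.tame_key hp2 S hS q hq hpq hP hpP f ho'
          (fun g hg => by
            obtain ⟨Q, hQ, hSQ, hpQ, hgQ⟩ := hg
            rw [hf]
            refine hk _ (hur Q hQ (fun l hl => ?_) _ hgQ)
            rcases hl with rfl | hl
            · exact hpQ
            · exact hSQ l hl)
          (fun τ hτ => by rw [hf]; exact hD _ hτ)
        intro σ
        exact h2 σ
  rcases Pool.Agent.Z384.dih hA hρ (D := Pool.Agent.W5h93.FMP.Dc P) happ hRf hR hirr hv hD' with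
    h | ⟨T, h3, h4, h5⟩
  · exact Or.inl h
  · exact Or.inr ⟨T, v, h3, h4, hv, h5⟩

end Pool.Agent.Results.MP_b583a4_nt.OnePrimeAboveP
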