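import Pool.Agent.W5h26.GE.TriCnt

/-!
# Ordinary two-dimensional representations with scalar reduction: three tame primes, every odd `p`

Let `p` be any odd prime. For a proportion of at least `(1 - 1/p)²` of the primes `q₁ ≡ 1 mod p`, for a proportion of at least
`(1 - 1/p)²` of the primes `q₂ ≡ 1 mod p`, for a proportion of at least `(1 - 1/p)² (1 - 2/p) (1 - 3/p) (1 - 4/p)` (at least `8/243`
if `p = 3`) of the primes `q₃ ≡ 1 mod p`: every two-dimensional ordinary representation of `Gal(ℚbar/ℚ)` over the ring of integers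
`A` of any finite extension of `ℚ_p`, with any residue field and any ramification index `e`, whose reduction is twice a character
and which is unramified outside `p`, `q₁`, `q₂`, `q₃` and primes not congruent to `1` modulo `p`, is reducible (if `2 e < p - 1`, or
if the inertia groups at the `q_i` act unipotently).

The companion `AllResidueFields` is about `n`-tuples and needs `p` to be large, without an explicit bound.
-/

set_option autoImplicit false

open NumberField Matrix IsLocalRing

namespace Pool.Agent.Results.MP_b583a4_nt.TriplesEveryOddPrime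

open Finset Filter
open Pool.Agent.Results.MP_b583a4_nt.OrdinaryScalar
open Pool.Agent.Results.MP_b583a4_nt.AllResidueFields
open Pool.Agent.Q202.RT Pool.Agent.Q202.QT Pool.Agent.W5h26.GE Pool.Agent.W5h26.GE.Tri
open Pool.Agent.W569.TG (lk)
open Pool.Agent.W5h26.UF (cnt PNum)

/-- the share of the third prime -/
noncomputable def share (p : ℕ) : ℝ :=
  if p = 3 then 8 / 243 else (1 - 1 / p) ^ 2 * (1 - 2 / p) * (1 - 3 / p) * (1 - 4 / p)

theorem share_le (p : ℕ) [Fact p.Prime] (hp2 : p ≠ 2) : share p ≤ 1 := by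
  have hp : p.Prime := Fact.out
  unfold share
  split_ifs with h
  · norm_num
  · have h5 : 5 ≤ p := by
      have := hp.two_le
      have h4 : p ≠ 4 := by
        rintro rfl
        norm_num at hp
      omega
    have hp5 : (5 : ℝ) ≤ p := by exact_mod_cast h5
    have hp0 : (0 : ℝ) < p := by linarith
    have hk : ∀ k : ℝ, 0 ≤ k → k ≤ 5 → 0 ≤ 1 - k / p ∧ 1 - k / p ≤ 1 := by
      intro k h0 h5
      refine ⟨?_, by linarith [div_nonneg h0 hp0.le]⟩
      rw [sub_nonneg, div_le_one hp0]
      linarith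
    obtain ⟨a0, a1⟩ := hk 1 (by norm_num) (by norm_num)
    obtain ⟨b0, b1⟩ := hk 2 (by norm_num) (by norm_num)
    obtain ⟨c0, c1⟩ := hk 3 (by norm_num) (by norm_num)
    obtain ⟨d0, d1⟩ := hk 4 (by norm_num) (by norm_num)
    have e1 : (1 - 1 / (p : ℝ)) ^ 2 ≤ 1 := pow_le_one₀ a0 a1
    have e2 := mul_le_one₀ e1 b0 b1
    have e3 := mul_le_one₀ e2 c0 c1
    exact mul_le_one₀ e3 d0 d1

theorem count_third {p : ℕ} [Fact p.Prime] (hp2 : p ≠ 2) {uk ul a c Bk Bl : ZMod p} (huk : uk ≠ 0) (hul : ul ≠ 0)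
    (hBk : Bk ≠ 0) (hac : c * Bl ≠ a * Bk) : share p * ((p : ℝ) ^ 3 * (p : ℝ) ^ 3) ≤ (PNum (G3 uk ul a c Bk Bl) : ℝ) := by
  have hp : p.Prime := Fact.out
  unfold share
  split_ifs with h
  · exact count3_three h huk hul hBk hac
  · have h5 : 5 ≤ p := by
      have := hp.two_le
      have h4 : p ≠ 4 := by
        rintro rfl
        norm_num at hp
      omega
    refine count3 h5 huk hul ?_
    by_contra hcon
    push Not at hcon
    exact hac (by rw [hcon.1, hcon.2, zero_mul, zero_mul])

/-- **Ordinary representations with scalar reduction, every odd prime `p`: three tame primes.** -/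
theorem result (p : ℕ) [Fact p.Prime] (hp2 : p ≠ 2) :
    Nested p (Reducible p) [(1 - 1 / (p : ℝ)) ^ 2, (1 - 1 / (p : ℝ)) ^ 2, share p] ∅ := by
  classical
  have hp : p.Prime := Fact.out
  have hp0 : (0 : ℝ) < p := by exact_mod_cast hp.pos
  have hp1 : (1 : ℝ) ≤ p := by exact_mod_cast hp.one_le
  have h1p : (0 : ℝ) ≤ 1 / p ∧ 1 / (p : ℝ) ≤ 1 := ⟨by positivity, by rw [div_le_one hp0]; exact hp1⟩
  obtain ⟨χ, hχ, -⟩ := extend (p := p) (fun _ => 1) ∅ (fun j hj => absurd hj (Set.notMem_empty j))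
  refine step hp2 hχ (Fin.elim0 : Fin 0 → ℕ) (fun i => i.elim0) (fun i => i.elim0) (fun i => i.elim0)
    (Set.range_eq_empty _) (fun w s => w 0 ≠ 0 ∧ s 0 ≠ 0) (fun w s h h0 => h.1 (by rw [h0]; rfl))
    (fun w s c hc h => ⟨mul_ne_zero hc h.1, h.2⟩) (pow_le_one₀ (by linarith) (by linarith)) ?_ ?_
  · refine le_trans count1 (le_of_eq ?_)
    unfold PNum cnt
    congr!
  intro k hk hpk _ ⟨hbk, hlk⟩
  have hbk' : lk χ p k ≠ 0 := hbk
  have hlk' : lv p k ≠ 0 := hlk
  refine step hp2 hχ (fun _ : Fin 1 => k) (fun _ => hk) (fun _ => hpk) (fun i j _ => Subsingleton.elim i j)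
    (by rw [Set.range_const, LawfulSingleton.insert_empty_eq])
    (fun w s => s 0 ≠ 0 ∧ lv p k * s 1 * w 0 ≠ s 0 * w 1 * lk χ p k)
    (fun w s h h0 => h.2 (by rw [h0]; simp))
    (fun w s c hc h => ⟨h.1, fun h' => h.2 (mul_left_cancel₀ hc (by linear_combination h'))⟩)
    (pow_le_one₀ (by linarith) (by linarith)) ?_ ?_
  · refine le_trans (count2 (u := lv p k) hbk') (le_of_eq ?_)
    unfold PNum cnt
    congr!
  intro l hl hpl hlT ⟨h2, h3⟩
  have hll' : lv p l ≠ 0 := h2
  have h3' : lv p k * lk χ l k * lk χ p l ≠ lv p l * lk χ k l * lk χ p k := h3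
  have hkl : k ≠ l := by
    rintro rfl
    exact hlT (Set.mem_insert _ _)
  have hac : lk χ l k / lv p l * lk χ p l ≠ lk χ k l / lv p k * lk χ p k := by
    intro h1
    apply h3'
    field_simp at h1
    linear_combination h1
  refine step hp2 hχ ![k, l] ?_ ?_ ?_ ?_ (G3 (lv p k) (lv p l) (lk χ k l / lv p k) (lk χ l k / lv p l) (lk χ p k) (lk χ p l))
    (fun w s h h0 => h.2.2.2.2.1 (by rw [h0]; simp)) (fun w s c hc h => G3_smul c hc h) (share_le p hp2) ?_ ?_
  · intro i
    fin_cases i
    · exact hk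
    · exact hl
  · intro i
    fin_cases i
    · exact hpk
    · exact hpl
  · intro i j hij
    fin_cases i <;> fin_cases j
    · rfl
    · exact absurd hij hkl
    · exact absurd hij.symm hkl
    · rfl
  · rw [LawfulSingleton.insert_empty_eq]
    ext x
    simp [or_comm]
  · refine le_trans (count_third hp2 hlk' hll' hbk' hac) (le_of_eq ?_)
    unfold PNum cnt
    congr!
  intro q hq hpq hqT h4
  rw [LawfulSingleton.insert_empty_eq] at hqT ⊢
  have hkq : k ≠ q := by
    rintro rfl
    exact hqT (by simp)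
  have hlq : l ≠ q := by
    rintro rfl
    exact hqT (by simp)
  exact trip_crit hp2 hχ hkl hkq hlq hlk' hll' hbk' h3' _ _ rfl rfl rfl rfl rfl rfl h4

end Pool.Agent.Results.MP_b583a4_nt.TriplesEveryOddPrime
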